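import Pool.Agent.Helper40.GP.Stm

/-!
# Package RED of the project GP: irreducible polynomials with a central gap
-/

open Polynomial

namespace Pool.Agent.Helper67.GP

open Pool.Agent.Helper40.GP

theorem cc_inj : Function.Injective (Int.castRingHom ℂ) := Int.cast_injective

theorem M_eq_one {F : ℂ[X]} (h1 : ‖F.leadingCoeff‖ = 1) (h : ∀ x ∈ F.roots, ‖x‖ ≤ 1) :
    F.mahlerMeasure = 1 := by
  rw [mahlerMeasure_eq_leadingCoeff_mul_prod_roots, h1, one_mul]
  have : F.roots.map (fun a ↦ max 1 ‖a‖) = F.roots.map (fun _ => (1:ℝ)) :=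
    Multiset.map_congr rfl fun x hx => max_eq_left (h x hx)
  rw [this]
  simp

theorem abs_eq_one_of {c : ℤ} (h0 : c ≠ 0) (h : ‖(c : ℂ)‖ < 2) : |c| = 1 := by
  rw [Complex.norm_intCast] at h
  have h1 : |c| < 2 := by exact_mod_cast h
  have h2 : 0 < |c| := abs_pos.2 h0
  omega

theorem red : S_RED := by
  intro f δ hf hM hδ hδ4 hgap
  have hf0 : f ≠ 0 := hf.ne_zero
  by_cases h2 : 2 ≤ (cc f).mahlerMeasure
  · exact Or.inl h2
  right
  push Not at h2
  have hlc : (cc f).leadingCoeff = ((f.leadingCoeff : ℤ) : ℂ) := by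
    unfold cc
    rw [leadingCoeff_map_of_injective cc_inj]
    simp
  have hlead : |f.leadingCoeff| = 1 := by
    refine abs_eq_one_of (leadingCoeff_ne_zero.2 hf0) ?_
    rw [← hlc]
    exact (leadingCoeff_le_mahlerMeasure _).trans_lt h2
  have hcoeff : ∀ i, (cc f).coeff i = ((f.coeff i : ℤ) : ℂ) := by
    intro i
    simp [cc]
  have hc0 : f.coeff 0 ≠ 0 := by
    intro h
    obtain ⟨g, hg⟩ := X_dvd_iff.2 h
    rcases hf.isUnit_or_isUnit hg with hu | hu
    · exact not_isUnit_X hu
    · obtain ⟨r, hr, hrg⟩ := Polynomial.isUnit_iff.1 hu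
      have hfe : cc f = X * C (r : ℂ) := by
        rw [hg, ← hrg]
        simp [cc]
      have hr1 : ‖(r:ℂ)‖ = 1 := by
        rcases Int.isUnit_iff.1 hr with h | h <;> simp [h]
      rw [hfe, mahlerMeasure_mul, mahlerMeasure_const, hr1, mul_one] at hM
      have hX : (X : ℂ[X]).mahlerMeasure = 1 := by
        have := mahlerMeasure_X_sub_C 0
        simpa using this
      rw [hX] at hM
      exact lt_irrefl _ hM
  have h0 : |f.coeff 0| = 1 := by
    refine abs_eq_one_of hc0 ?_
    rw [← hcoeff]
    refine lt_of_le_of_lt ?_ h2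
    have := norm_coeff_le_choose_mul_mahlerMeasure 0 (cc f)
    simpa using this
  by_cases hrev : f ≠ f.reverse ∧ f ≠ -f.reverse
  · left
    refine ⟨?_, h0, hrev⟩
    rcases abs_eq (by norm_num : (0:ℤ) ≤ 1) |>.1 hlead with h | h
    · exact Or.inl h
    · right
      rw [Monic, leadingCoeff_neg, h]
      norm_num
  right
  obtain ⟨s, hs, hfs⟩ : ∃ s : ℤ, (s = 1 ∨ s = -1) ∧ f = C s * f.reverse := by
    rw [not_and_or, not_not, not_not] at hrev
    rcases hrev with h | h
    · exact ⟨1, Or.inl rfl, by simpa using h⟩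
    · exact ⟨-1, Or.inr rfl, by simpa using h⟩
  set d := f.natDegree with hd
  have hcf : ∀ i, i ≤ d → f.coeff i = s * f.coeff (d - i) := by
    intro i hi
    conv_lhs => rw [hfs]
    rw [coeff_C_mul, coeff_reverse, ← hd, revAt_le hi]
  have hd0 : d ≠ 0 := by
    intro h
    have h3 : f = C (f.coeff 0) := eq_C_of_natDegree_eq_zero h
    apply hf.not_isUnit
    rw [h3]
    refine IsUnit.map C ?_
    exact Int.isUnit_iff_abs_eq.2 h0
  have hd1 : d ≠ 1 := by
    intro h
    have h3 : (cc f).degree = 1 := by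
      unfold cc
      rw [degree_map_eq_of_injective cc_inj, degree_eq_natDegree hf0, ← hd, h]
      rfl
    rw [mahlerMeasure_of_degree_eq_one h3, hcoeff, hcoeff] at hM
    have h4 : |f.coeff 1| = 1 := by
      have : f.coeff 1 = f.leadingCoeff := by
        rw [leadingCoeff, ← hd, h]
      rw [this, hlead]
    rw [Complex.norm_intCast, Complex.norm_intCast] at hM
    have h5 : |((f.coeff 1 : ℤ) : ℝ)| = 1 := by exact_mod_cast h4
    have h6 : |((f.coeff 0 : ℤ) : ℝ)| = 1 := by exact_mod_cast h0
    rw [h5, h6] at hM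
    simp at hM
  have hd2 : 2 ≤ d := by omega
  have hdr : (2:ℝ) ≤ d := by exact_mod_cast hd2
  set L := Real.log d with hL
  have hLlog : Real.log 2 ≤ L := Real.log_le_log (by norm_num) hdr
  have hL2 : (0.69:ℝ) < L := lt_of_lt_of_le (by have := Real.log_two_gt_d9; linarith) hLlog
  have hLpos : 0 < L := by linarith
  set m := ⌊δ * d / L⌋₊ with hm
  have hmle : (m:ℝ) * L ≤ δ * d := by
    have : (m:ℝ) ≤ δ * d / L := Nat.floor_le (by positivity)
    rwa [le_div_iff₀ hLpos] at this
  have hmlt : ∀ i : ℕ, m < i → δ * d < i * L := by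
    intro i hi
    have h3 : δ * d / L < i := lt_of_lt_of_le (Nat.lt_floor_add_one _) (by
      rw [← hm]
      exact_mod_cast hi)
    rwa [div_lt_iff₀ hLpos] at h3
  have h2m : 2 * m < d := by
    have h3 : (m:ℝ) * 0.69 ≤ 1 / 4 * d := by
      have h4 : (m:ℝ) * 0.69 ≤ m * L := by
        have : (0:ℝ) ≤ m := by positivity
        nlinarith
      have h5 : δ * d ≤ 1 / 4 * d := by
        have : (0:ℝ) ≤ d := by positivity
        nlinarith
      linarith
    have h4 : (2:ℝ) * m < d := by
      nlinarith
    exact_mod_cast h4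
  have hzero : ∀ i : ℕ, m < i → i + m < d → f.coeff i = 0 := by
    intro i h3 h4
    apply hgap i
    · rw [← hd, ← hL]
      exact hmlt i h3
    · rw [← hd, ← hL]
      have h5 := hmlt (d - i) (by omega)
      rwa [Nat.cast_sub (by omega)] at h5
  -- the polynomial `A`
  set A : ℤ[X] := ∑ i ∈ Finset.range (m + 1), C (f.coeff i) * X ^ i with hA
  have hAc : ∀ i, A.coeff i = if i ≤ m then f.coeff i else 0 := by
    intro i
    rw [hA, finsetSum_coeff]
    simp only [coeff_C_mul, coeff_X_pow, mul_ite, mul_one, mul_zero]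
    rw [Finset.sum_ite_eq]
    simp only [Finset.mem_range, Nat.lt_succ_iff]
  have hA0 : A.coeff 0 = f.coeff 0 := by rw [hAc]; simp
  have hAne : A ≠ 0 := by
    intro h
    rw [h, coeff_zero] at hA0
    exact hc0 hA0.symm
  set a := A.natDegree with ha
  have ham : a ≤ m := by
    rw [ha, natDegree_le_iff_coeff_eq_zero]
    intro N hN
    rw [hAc, if_neg (by omega)]
  have hAbig : ∀ i, a < i → A.coeff i = 0 := fun i hi => coeff_eq_zero_of_natDegree_lt hi
  have hfA : f = gp A s (d - a) := by
    ext i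
    unfold gp
    rw [coeff_add, mul_assoc, coeff_C_mul, coeff_X_pow_mul', coeff_reverse, ← ha]
    by_cases hi1 : d < i
    · rw [coeff_eq_zero_of_natDegree_lt (by rw [← hd]; exact hi1), hAbig i (by omega),
        if_pos (by omega), revAt_eq_self_of_lt (by omega), hAbig _ (by omega)]
      simp
    push Not at hi1
    by_cases hi2 : i ≤ m
    · rw [hAc, if_pos hi2, if_neg (by omega)]
      simp
    push Not at hi2
    rw [hAc i, if_neg (by omega), zero_add]
    by_cases hi3 : i + m < d
    · rw [hzero i hi2 hi3, if_neg (by omega)]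
      simp
    push Not at hi3
    rw [hcf i hi1]
    by_cases hi4 : d - a ≤ i
    · rw [if_pos hi4, revAt_le (by omega), show a - (i - (d - a)) = d - i by omega, hAc,
        if_pos (by omega)]
    · rw [if_neg hi4]
      have h3 : A.coeff (d - i) = 0 := hAbig _ (by omega)
      rw [hAc, if_pos (by omega)] at h3
      rw [h3]
  have ha1 : 1 ≤ a := by
    by_contra hcon
    have ha0 : a = 0 := by omega
    have hAC : A = C (f.coeff 0) := by
      rw [← hA0]
      exact eq_C_of_natDegree_eq_zero (by rw [← ha, ha0])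
    rw [ha0, Nat.sub_zero] at hfA
    have hM1 : (cc f).mahlerMeasure = 1 := by
      apply M_eq_one
      · rw [hlc, Complex.norm_intCast]
        exact_mod_cast hlead
      · intro x hx
        have hx0 : (cc f).eval x = 0 := (mem_roots'.1 hx).2
        rw [hfA, hAC] at hx0
        simp only [cc, gp, Polynomial.map_add, Polynomial.map_mul, Polynomial.map_pow, map_X, map_C,
          reverse_C, eval_add, eval_mul, eval_C, eval_pow, eval_X] at hx0
        have h3 : ((f.coeff 0 : ℤ) : ℂ) * (1 + s * x ^ d) = 0 := by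
          rw [← hx0]
          simp only [eq_intCast]
          ring
        have h4 : (1 + (s:ℂ) * x ^ d) = 0 := by
          rcases mul_eq_zero.1 h3 with h | h
          · exact absurd (by exact_mod_cast h) hc0
          · exact h
        have h5 : ‖(s:ℂ) * x ^ d‖ = 1 := by
          rw [show (s:ℂ) * x ^ d = -1 by linear_combination h4]
          simp
        have hs1 : ‖(s:ℂ)‖ = 1 := by
          rcases hs with h | h <;> simp [h]
        rw [norm_mul, hs1, one_mul, norm_pow] at h5
        by_contra hcon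
        push Not at hcon
        have := one_lt_pow₀ hcon hd0
        linarith
    rw [hM1] at hM
    exact lt_irrefl _ hM
  -- irreducibility over the rationals
  have hprim : f.IsPrimitive := hf.isPrimitive (by rw [← hd]; exact hd0)
  have hfQ : Irreducible (f.map (Int.castRingHom ℚ)) :=
    (IsPrimitive.Int.irreducible_iff_irreducible_map_cast hprim).1 hf
  have hfeq : f.map (Int.castRingHom ℚ) = A.map (Int.castRingHom ℚ) +
      (C (s:ℚ) * X ^ (d - a)) * A.reverse.map (Int.castRingHom ℚ) := by
    conv_lhs => rw [hfA]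
    simp [gp]
  have hAQne : A.map (Int.castRingHom ℚ) ≠ 0 :=
    (Polynomial.map_ne_zero_iff Int.cast_injective).2 hAne
  have hcop : IsCoprime (A.map (Int.castRingHom ℚ)) (A.reverse.map (Int.castRingHom ℚ)) := by
    have h3 : IsCoprime (f.map (Int.castRingHom ℚ)) (A.map (Int.castRingHom ℚ)) := by
      refine (hfQ.coprime_iff_not_dvd).2 fun hdvd => ?_
      have h4 := natDegree_le_of_dvd hdvd hAQne
      rw [natDegree_map_eq_of_injective Int.cast_injective,
        natDegree_map_eq_of_injective Int.cast_injective, ← hd, ← ha] at h4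
      omega
    have h5 := h3.symm
    rw [hfeq] at h5
    have h6 : IsCoprime (A.map (Int.castRingHom ℚ))
        ((C (s:ℚ) * X ^ (d - a)) * A.reverse.map (Int.castRingHom ℚ)) := by
      have := (IsCoprime.add_mul_left_right_iff (x := A.map (Int.castRingHom ℚ))
        (y := (C (s:ℚ) * X ^ (d - a)) * A.reverse.map (Int.castRingHom ℚ)) (z := 1)).1 (by
          rw [mul_one, add_comm]
          exact h5)
      exact this
    exact h6.of_mul_right_right
  have hsep : (cc f).Separable := by
    have h3 : (f.map (Int.castRingHom ℚ)).Separable := hfQ.separable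
    have h4 := h3.map (f := algebraMap ℚ ℂ)
    rw [Polynomial.map_map] at h4
    have h5 : (algebraMap ℚ ℂ).comp (Int.castRingHom ℚ) = Int.castRingHom ℂ := RingHom.ext_int _ _
    rw [h5] at h4
    exact h4
  refine ⟨A, s, d - a, hfA, ⟨ha1, ?_, hcop⟩, hs, ?_, ?_, ?_, hsep⟩
  · rw [hA0, h0]
  · omega
  · omega
  · have : (a:ℝ) ≤ m := by exact_mod_cast ham
    calc (a:ℝ) * L ≤ m * L := by gcongr
      _ ≤ δ * d := hmle

end Pool.Agent.Helper67.GP
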