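import Pool.Agent.Helper40.GP.Stm

/-!
# Package DD of the project GP: Vandermonde determinants with divided differences
-/

open Polynomial

namespace Pool.Agent.Helper67.GP

open Pool.Agent.Helper40.GP

theorem V2_eq_if {ι : Type} [Fintype ι] [DecidableEq ι] (z : ι → ℂ) :
    V2 z = ∏ i, ∏ j, if j = i then 1 else ‖z i - z j‖ := by
  unfold V2
  refine Finset.prod_congr rfl fun i _ => ?_
  rw [← Finset.mul_prod_erase Finset.univ (fun j => if j = i then (1:ℝ) else ‖z i - z j‖)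
    (Finset.mem_univ i)]
  simp only [if_true, one_mul]
  refine Finset.prod_congr rfl fun j hj => ?_
  rw [if_neg (Finset.ne_of_mem_erase hj)]

theorem V2_comp {ι κ : Type} [Fintype ι] [DecidableEq ι] [Fintype κ] [DecidableEq κ]
    (z : ι → ℂ) (e : κ ≃ ι) : V2 (z ∘ e) = V2 z := by
  rw [V2_eq_if, V2_eq_if, ← Equiv.prod_comp e]
  refine Finset.prod_congr rfl fun i _ => ?_
  rw [← Equiv.prod_comp e]
  refine Finset.prod_congr rfl fun j _ => ?_
  simp [e.injective.eq_iff]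

theorem V2_nonneg {ι : Type} [Fintype ι] [DecidableEq ι] (z : ι → ℂ) : 0 ≤ V2 z :=
  Finset.prod_nonneg fun _ _ => Finset.prod_nonneg fun _ _ => norm_nonneg _

theorem V2_sum {d a : ℕ} (z : Fin d → ℂ) (x : Fin a → ℂ) :
    V2 (Sum.elim z x) = V2 z * V2 x * (∏ i, ∏ j, ‖z i - x j‖) ^ 2 := by
  rw [V2_eq_if, V2_eq_if, V2_eq_if, Fintype.prod_sum_type]
  have h1 : ∀ i : Fin d, (∏ j : Fin d ⊕ Fin a, if j = Sum.inl i then (1:ℝ) else
      ‖Sum.elim z x (Sum.inl i) - Sum.elim z x j‖) =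
      (∏ j, if j = i then (1:ℝ) else ‖z i - z j‖) * ∏ j, ‖z i - x j‖ := by
    intro i
    rw [Fintype.prod_sum_type]
    simp
  have h2 : ∀ i : Fin a, (∏ j : Fin d ⊕ Fin a, if j = Sum.inr i then (1:ℝ) else
      ‖Sum.elim z x (Sum.inr i) - Sum.elim z x j‖) =
      (∏ j, ‖x i - z j‖) * (∏ j, if j = i then (1:ℝ) else ‖x i - x j‖) := by
    intro i
    rw [Fintype.prod_sum_type]
    simp
  rw [Finset.prod_congr rfl fun i _ => h1 i, Finset.prod_congr rfl fun i _ => h2 i,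
    Finset.prod_mul_distrib, Finset.prod_mul_distrib, Finset.prod_comm (s := (Finset.univ : Finset (Fin a)))
      (t := (Finset.univ : Finset (Fin d)))]
  have h3 : (∏ y : Fin d, ∏ i : Fin a, ‖x i - z y‖) = ∏ i, ∏ j, ‖z i - x j‖ :=
    Finset.prod_congr rfl fun i _ => Finset.prod_congr rfl fun j _ => norm_sub_rev _ _
  rw [h3]
  ring

/-- the square of the absolute value of the Vandermonde determinant -/
theorem V2_eq_det {N : ℕ} (w : Fin N → ℂ) : V2 w = ‖(Matrix.vandermonde w).det‖ ^ 2 := by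
  rw [Matrix.det_vandermonde, norm_prod]
  have h0 : ∀ i : Fin N, ‖∏ j ∈ Finset.Ioi i, (w j - w i)‖ = ∏ j ∈ Finset.Ioi i, ‖w i - w j‖ := by
    intro i
    rw [norm_prod]
    exact Finset.prod_congr rfl fun j _ => norm_sub_rev _ _
  rw [Finset.prod_congr rfl fun i _ => h0 i]
  have h1 : ∀ i : Fin N, ∏ j ∈ Finset.univ.erase i, ‖w i - w j‖ =
      (∏ j ∈ Finset.Ioi i, ‖w i - w j‖) * ∏ j ∈ Finset.Iio i, ‖w i - w j‖ := by
    intro i
    rw [← Finset.prod_union]
    · refine Finset.prod_congr ?_ fun _ _ => rfl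
      ext j
      simp only [Finset.mem_erase, Finset.mem_univ, and_true, Finset.mem_union, Finset.mem_Ioi,
        Finset.mem_Iio]
      constructor
      · intro h
        exact (lt_or_gt_of_ne h).symm
      · rintro (h | h)
        · exact h.ne'
        · exact h.ne
    · rw [Finset.disjoint_left]
      intro j hj hj'
      exact absurd (Finset.mem_Ioi.1 hj) (not_lt.2 (Finset.mem_Iio.1 hj').le)
  unfold V2
  rw [Finset.prod_congr rfl fun i _ => h1 i, Finset.prod_mul_distrib, sq]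
  congr 1
  rw [Finset.prod_comm' (t' := Finset.univ) (s' := fun j => Finset.Ioi j)]
  · exact Finset.prod_congr rfl fun i _ => Finset.prod_congr rfl fun j _ => norm_sub_rev _ _
  · intro x y
    simp

/-- Leibniz bound with row bounds -/
theorem det_bound {ι : Type} [Fintype ι] [DecidableEq ι] (M : Matrix ι ι ℂ) (R : ι → ℝ)
    (h : ∀ i j, ‖M i j‖ ≤ R i) : ‖M.det‖ ≤ ((Fintype.card ι).factorial : ℝ) * ∏ i, R i := by
  rw [Matrix.det_apply]
  refine (norm_sum_le _ _).trans ?_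
  have hh : ∀ σ ∈ (Finset.univ : Finset (Equiv.Perm ι)),
      ‖Equiv.Perm.sign σ • ∏ i, M (σ i) i‖ ≤ ∏ i, R i := by
    intro σ _
    have e1 : ‖Equiv.Perm.sign σ • ∏ i, M (σ i) i‖ = ‖∏ i, M (σ i) i‖ := by
      rcases Int.units_eq_one_or (Equiv.Perm.sign σ) with h | h <;> rw [h] <;> simp
    rw [e1, norm_prod]
    refine (Finset.prod_le_prod (fun _ _ => norm_nonneg _) fun i _ => h (σ i) i).trans ?_
    rw [Equiv.prod_comp σ R]
  refine (Finset.sum_le_card_nsmul _ _ _ hh).trans ?_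
  rw [nsmul_eq_mul, Finset.card_univ, Fintype.card_perm]

theorem pow_le_three (N : ℕ) (hN : 0 < N) : (1 + 1 / (N:ℝ)) ^ N ≤ 3 := by
  have h1 : (1 + 1 / (N:ℝ)) ^ N ≤ Real.exp 1 := by
    have h2 : 1 + 1 / (N:ℝ) ≤ Real.exp (1 / N) := by
      have := Real.add_one_le_exp (1 / (N:ℝ))
      linarith
    calc (1 + 1 / (N:ℝ)) ^ N ≤ (Real.exp (1 / N)) ^ N := by
          gcongr
      _ = Real.exp 1 := by
          rw [← Real.exp_nat_mul]
          congr 1
          field_simp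
  have := Real.exp_one_lt_d9
  linarith

theorem quot_bound (N m : ℕ) (hm : m < N) (z x : ℂ) (hzx : z ≠ x) (h : ‖z - x‖ * N ≤ 1) :
    ‖(z ^ m - x ^ m) / (z - x)‖ ≤ 3 * N * (max 1 ‖z‖) ^ N := by
  have hN : 0 < N := by omega
  have hNr : (1:ℝ) ≤ N := by exact_mod_cast hN
  have hz : z - x ≠ 0 := sub_ne_zero.2 hzx
  set μ := max 1 ‖z‖ with hμ
  have hμ1 : 1 ≤ μ := le_max_left _ _
  set t : ℝ := 1 + 1 / (N:ℝ) with ht
  have ht1 : 1 ≤ t := by
    rw [ht]
    have : 0 ≤ 1 / (N:ℝ) := by positivity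
    linarith
  have hzt : ‖z‖ ≤ μ * t := by
    calc ‖z‖ ≤ μ := le_max_right _ _
      _ = μ * 1 := (mul_one _).symm
      _ ≤ μ * t := by gcongr
  have hxt : ‖x‖ ≤ μ * t := by
    have h1 : ‖z - x‖ ≤ 1 / N := by
      rw [le_div_iff₀ (by linarith)]
      exact h
    calc ‖x‖ = ‖z - (z - x)‖ := by congr 1; ring
      _ ≤ ‖z‖ + ‖z - x‖ := norm_sub_le _ _
      _ ≤ μ + 1 / N := add_le_add (le_max_right _ _) h1
      _ ≤ μ + μ * (1 / N) := by
          have : 1 / (N:ℝ) ≤ μ * (1 / N) := by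
            have : 0 ≤ 1 / (N:ℝ) := by positivity
            nlinarith
          linarith
      _ = μ * t := by rw [ht]; ring
  have hge : (z ^ m - x ^ m) / (z - x) = ∑ i ∈ Finset.range m, z ^ i * x ^ (m - 1 - i) := by
    rw [div_eq_iff hz, ← (Commute.all z x).geom_sum₂_mul m]
  rw [hge]
  have hμt : 1 ≤ μ * t := by nlinarith
  refine (norm_sum_le _ _).trans ?_
  have hb : ∀ i ∈ Finset.range m, ‖z ^ i * x ^ (m - 1 - i)‖ ≤ (μ * t) ^ N := by
    intro i hi
    have hi := Finset.mem_range.1 hi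
    rw [norm_mul, norm_pow, norm_pow]
    calc ‖z‖ ^ i * ‖x‖ ^ (m - 1 - i) ≤ (μ * t) ^ i * (μ * t) ^ (m - 1 - i) := by
          gcongr
      _ = (μ * t) ^ (i + (m - 1 - i)) := (pow_add _ _ _).symm
      _ ≤ (μ * t) ^ N := pow_le_pow_right₀ hμt (by omega)
  refine (Finset.sum_le_card_nsmul _ _ _ hb).trans ?_
  rw [Finset.card_range, nsmul_eq_mul, mul_pow]
  have h3 : t ^ N ≤ 3 := pow_le_three N hN
  have hμN : 0 ≤ μ ^ N := by positivity
  calc (m:ℝ) * (μ ^ N * t ^ N) ≤ N * (μ ^ N * 3) := by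
        gcongr
    _ = 3 * N * μ ^ N := by ring

theorem pow_bound (N m : ℕ) (hm : m < N) (z : ℂ) : ‖z ^ m‖ ≤ (max 1 ‖z‖) ^ N := by
  rw [norm_pow]
  calc ‖z‖ ^ m ≤ (max 1 ‖z‖) ^ m := by
        gcongr
        exact le_max_right _ _
    _ ≤ (max 1 ‖z‖) ^ N := pow_le_pow_right₀ (le_max_left _ _) hm.le

theorem dd : S_DD := by
  classical
  intro d a z x g T hne hcl
  set N := d + a with hN
  set e : Fin d ⊕ Fin a ≃ Fin N := finSumFinEquiv with he
  set w : Fin d ⊕ Fin a → ℂ := Sum.elim z x with hw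
  set M : Matrix (Fin d ⊕ Fin a) (Fin d ⊕ Fin a) ℂ :=
    Matrix.of fun r c => w r ^ (e c : ℕ) with hM
  -- the determinant of `M`
  have hdet : V2 w = ‖M.det‖ ^ 2 := by
    rw [← V2_comp w e.symm, V2_eq_det]
    congr 2
    have : M = (Matrix.vandermonde (w ∘ e.symm)).submatrix e e := by
      ext r c
      simp [hM, Matrix.vandermonde_apply]
    rw [this, Matrix.det_submatrix_equiv_self]
  -- the row operations
  set G : Matrix (Fin d) (Fin a) ℂ := Matrix.of fun i j => if i ∈ T ∧ j = g i then (-1 : ℂ) else 0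
    with hG
  set U : Matrix (Fin d ⊕ Fin a) (Fin d ⊕ Fin a) ℂ := Matrix.fromBlocks 1 G 0 1 with hU
  have hUdet : U.det = 1 := by
    rw [hU, Matrix.det_fromBlocks_zero₂₁, Matrix.det_one, Matrix.det_one, one_mul]
  set c : Fin d ⊕ Fin a → ℂ := Sum.elim (fun i => if i ∈ T then z i - x (g i) else 1)
    (fun _ => 1) with hc
  set M' : Matrix (Fin d ⊕ Fin a) (Fin d ⊕ Fin a) ℂ := Matrix.of fun r k =>
    Sum.elim (fun i => if i ∈ T then (z i ^ (e k : ℕ) - x (g i) ^ (e k : ℕ)) / (z i - x (g i))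
      else z i ^ (e k : ℕ)) (fun j => x j ^ (e k : ℕ)) r with hM'
  have hUM : U * M = Matrix.diagonal c * M' := by
    ext r k
    rw [Matrix.diagonal_mul, Matrix.mul_apply, Fintype.sum_sum_type]
    rcases r with i | j
    · simp only [hU, Matrix.fromBlocks_apply₁₁, Matrix.fromBlocks_apply₁₂, Matrix.one_apply, hM,
        Matrix.of_apply, hw, Sum.elim_inl, Sum.elim_inr, hG, hc, hM', ite_mul, one_mul, zero_mul,
        Finset.sum_ite_eq, Finset.mem_univ, if_true]
      by_cases hi : i ∈ T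
      · have hz : z i - x (g i) ≠ 0 := sub_ne_zero.2 (hne i hi)
        simp only [hi, true_and, if_true, Finset.sum_ite_eq', Finset.mem_univ]
        field_simp
        ring
      · simp [hi]
    · simp only [hU, Matrix.fromBlocks_apply₂₁, Matrix.fromBlocks_apply₂₂, Matrix.one_apply, hM,
        Matrix.of_apply, hw, Sum.elim_inl, Sum.elim_inr, hc, hM', ite_mul, one_mul, zero_mul,
        Finset.sum_ite_eq, Finset.mem_univ, if_true, Matrix.zero_apply, Finset.sum_const_zero,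
        zero_add]
  have hd2 : M.det = (∏ i ∈ T, (z i - x (g i))) * M'.det := by
    have h1 : (U * M).det = M.det := by rw [Matrix.det_mul, hUdet, one_mul]
    rw [← h1, hUM, Matrix.det_mul, Matrix.det_diagonal]
    congr 1
    rw [Fintype.prod_sum_type]
    simp only [hc, Sum.elim_inl, Sum.elim_inr, Finset.prod_const_one, mul_one]
    rw [Finset.prod_ite]
    simp
  -- the bound of the rows
  set R : Fin d ⊕ Fin a → ℝ := Sum.elim (fun i => 3 * (N:ℝ) * (max 1 ‖z i‖) ^ N)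
    (fun j => (max 1 ‖x j‖) ^ N) with hR
  have hrow : ∀ r k, ‖M' r k‖ ≤ R r := by
    intro r k
    have hk : ((e k : Fin N) : ℕ) < N := (e k).2
    have hN1 : 1 ≤ N := by omega
    rcases r with i | j
    · simp only [hM', Matrix.of_apply, Sum.elim_inl, hR]
      split_ifs with hi
      · exact quot_bound N _ hk _ _ (hne i hi) (hcl i hi)
      · refine (pow_bound N _ hk _).trans ?_
        have h1 : (1:ℝ) ≤ 3 * N := by
          have : (1:ℝ) ≤ N := by exact_mod_cast hN1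
          linarith
        have h2 : (0:ℝ) ≤ (max 1 ‖z i‖) ^ N := by positivity
        nlinarith
    · simp only [hM', Matrix.of_apply, Sum.elim_inr, hR]
      exact pow_bound N _ hk _
  have hb := det_bound M' R hrow
  have hcard : Fintype.card (Fin d ⊕ Fin a) = N := by simp [hN]
  rw [hcard] at hb
  have hRprod : ∏ r, R r = (3 * (N:ℝ)) ^ d * (∏ i, (max 1 ‖z i‖)) ^ N *
      (∏ j, (max 1 ‖x j‖)) ^ N := by
    rw [Fintype.prod_sum_type]
    simp only [hR, Sum.elim_inl, Sum.elim_inr]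
    rw [Finset.prod_mul_distrib, Finset.prod_const, Finset.card_univ, Fintype.card_fin,
      Finset.prod_pow, Finset.prod_pow]
  rw [hRprod] at hb
  rw [← V2_sum, ← hw, hdet, hd2, norm_mul, norm_prod, mul_pow]
  have h5 : ‖M'.det‖ ^ 2 ≤ ((N.factorial : ℝ) * ((3 * (N:ℝ)) ^ d * (∏ i, (max 1 ‖z i‖)) ^ N *
      (∏ j, (max 1 ‖x j‖)) ^ N)) ^ 2 := by
    gcongr
  calc (∏ i ∈ T, ‖z i - x (g i)‖) ^ 2 * ‖M'.det‖ ^ 2 ≤
      (∏ i ∈ T, ‖z i - x (g i)‖) ^ 2 * ((N.factorial : ℝ) * ((3 * (N:ℝ)) ^ d *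
        (∏ i, (max 1 ‖z i‖)) ^ N * (∏ j, (max 1 ‖x j‖)) ^ N)) ^ 2 := by
        gcongr
    _ = _ := by
        rw [mul_comm 2 d, mul_comm 2 N, pow_mul, pow_mul, pow_mul]
        ring

end Pool.Agent.Helper67.GP
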